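import Mathlib

/-!
# MP_c0ce05_co, Q2: two preorders on a finite set

`srcs A R` = least representatives of the source components of `R` on `A`, `cmps A R` = least
representatives of all components.
-/

set_option autoImplicit false

namespace C0q2

open scoped Classical

variable {V : Type} [LinearOrder V] {A : Finset V} {R R' : V → V → Prop}

/-- least representatives of the source components -/
noncomputable def srcs (A : Finset V) (R : V → V → Prop) : Finset V :=
  A.filter (fun x => ∀ w ∈ A, R w x → R x w ∧ x ≤ w)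

/-- least representatives of the components -/
noncomputable def cmps (A : Finset V) (R : V → V → Prop) : Finset V :=
  A.filter (fun x => ∀ w ∈ A, R w x → R x w → x ≤ w)

/-- least representative of the component of `x` -/
noncomputable def rep (A : Finset V) (R : V → V → Prop) (x : V) : V :=
  if h : (A.filter (fun w => R w x ∧ R x w)).Nonempty then
    (A.filter (fun w => R w x ∧ R x w)).min' h else x

theorem mem_srcs {x : V} : x ∈ srcs A R ↔ x ∈ A ∧ ∀ w ∈ A, R w x → R x w ∧ x ≤ w := by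
  unfold srcs
  rw [Finset.mem_filter]

theorem mem_cmps {x : V} : x ∈ cmps A R ↔ x ∈ A ∧ ∀ w ∈ A, R w x → R x w → x ≤ w := by
  unfold cmps
  rw [Finset.mem_filter]

theorem srcs_sub_cmps : srcs A R ⊆ cmps A R := by
  intro x hx
  rw [mem_srcs] at hx
  rw [mem_cmps]
  exact ⟨hx.1, fun w hw h1 _ => (hx.2 w hw h1).2⟩

theorem srcs_sub : srcs A R ⊆ A := Finset.filter_subset _ _

theorem cmps_sub : cmps A R ⊆ A := Finset.filter_subset _ _

theorem rep_spec (hr : ∀ x, R x x) {x : V} (hx : x ∈ A) :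
    rep A R x ∈ A ∧ R (rep A R x) x ∧ R x (rep A R x) ∧
      ∀ w ∈ A, R w x → R x w → rep A R x ≤ w := by
  have h : (A.filter (fun w => R w x ∧ R x w)).Nonempty :=
    ⟨x, Finset.mem_filter.2 ⟨hx, hr x, hr x⟩⟩
  have h1 : rep A R x = (A.filter (fun w => R w x ∧ R x w)).min' h := by
    unfold rep
    rw [dif_pos h]
  have h2 := Finset.min'_mem _ h
  rw [← h1, Finset.mem_filter] at h2
  refine ⟨h2.1, h2.2.1, h2.2.2, fun w hw h3 h4 => ?_⟩
  rw [h1]
  exact Finset.min'_le _ _ (Finset.mem_filter.2 ⟨hw, h3, h4⟩)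

theorem rep_mem (hr : ∀ x, R x x) {x : V} (hx : x ∈ A) : rep A R x ∈ A := (rep_spec hr hx).1

theorem rep_mem_cmps (hr : ∀ x, R x x) (ht : ∀ x y z, R x y → R y z → R x z) {x : V}
    (hx : x ∈ A) : rep A R x ∈ cmps A R := by
  obtain ⟨h1, h2, h3, h4⟩ := rep_spec hr hx
  rw [mem_cmps]
  exact ⟨h1, fun w hw h5 h6 => h4 w hw (ht _ _ _ h5 h2) (ht _ _ _ h3 h6)⟩

theorem rep_eq (hr : ∀ x, R x x) (ht : ∀ x y z, R x y → R y z → R x z) {x y : V}
    (hx : x ∈ A) (hy : y ∈ A) (hxy : R x y) (hyx : R y x) : rep A R x = rep A R y := by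
  obtain ⟨h1, h2, h3, h4⟩ := rep_spec hr hx
  obtain ⟨k1, k2, k3, k4⟩ := rep_spec hr hy
  apply le_antisymm
  · exact h4 _ k1 (ht _ _ _ k2 hyx) (ht _ _ _ hxy k3)
  · exact k4 _ h1 (ht _ _ _ h2 hxy) (ht _ _ _ hyx h3)

theorem rep_eq_imp (hr : ∀ x, R x x) (ht : ∀ x y z, R x y → R y z → R x z) {x y : V}
    (hx : x ∈ A) (hy : y ∈ A) (h : rep A R x = rep A R y) : R x y ∧ R y x := by
  obtain ⟨h1, h2, h3, h4⟩ := rep_spec hr hx
  obtain ⟨k1, k2, k3, k4⟩ := rep_spec hr hy
  rw [← h] at k2 k3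
  exact ⟨ht _ _ _ h3 k2, ht _ _ _ k3 h2⟩

theorem rep_cmps (hr : ∀ x, R x x) {x : V} (hx : x ∈ cmps A R) : rep A R x = x := by
  rw [mem_cmps] at hx
  obtain ⟨h1, h2, h3, h4⟩ := rep_spec hr hx.1
  exact le_antisymm (h4 x hx.1 (hr x) (hr x)) (hx.2 _ h1 h2 h3)

/-- Every element is reached from a source. -/
theorem exists_srcs (hr : ∀ x, R x x) (ht : ∀ x y z, R x y → R y z → R x z) {x : V}
    (hx : x ∈ A) : ∃ s ∈ srcs A R, R s x := by
  -- choose `w` with `R w x` and the least number of predecessors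
  have hne : (A.filter (fun w => R w x)).Nonempty := ⟨x, Finset.mem_filter.2 ⟨hx, hr x⟩⟩
  obtain ⟨w, hw, hmin⟩ := Finset.exists_min_image (A.filter (fun w => R w x))
    (fun w => (A.filter (fun u => R u w)).card) hne
  rw [Finset.mem_filter] at hw
  have key : ∀ u ∈ A, R u w → R w u := by
    intro u hu huw
    by_contra hcon
    have h1 := hmin u (Finset.mem_filter.2 ⟨hu, ht _ _ _ huw hw.2⟩)
    have h2 : (A.filter (fun v => R v u)) ⊂ (A.filter (fun v => R v w)) := by
      rw [Finset.ssubset_iff_of_subset]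
      · refine ⟨w, Finset.mem_filter.2 ⟨hw.1, hr w⟩, fun h => hcon ?_⟩
        exact (Finset.mem_filter.1 h).2
      · intro v hv
        rw [Finset.mem_filter] at hv ⊢
        exact ⟨hv.1, ht _ _ _ hv.2 huw⟩
    exact absurd (Finset.card_lt_card h2) (not_lt.2 h1)
  obtain ⟨h1, h2, h3, h4⟩ := rep_spec hr hw.1
  refine ⟨rep A R w, ?_, ht _ _ _ h2 hw.2⟩
  rw [mem_srcs]
  refine ⟨h1, fun u hu huw => ?_⟩
  have h5 := ht _ _ _ huw h2
  have h6 := key u hu h5
  exact ⟨ht _ _ _ h2 h6, h4 u hu h5 h6⟩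

/-- the old sources below the source `s` of the larger preorder -/
noncomputable def olds (A : Finset V) (R R' : V → V → Prop) (s : V) : Finset V :=
  (srcs A R).filter (fun u => R' u s)

theorem mem_olds {s u : V} : u ∈ olds A R R' s ↔ u ∈ srcs A R ∧ R' u s := by
  unfold olds
  rw [Finset.mem_filter]

/-- (L3), part 1 -/
theorem drop_cmps (hr : ∀ x, R x x) (ht : ∀ x y z, R x y → R y z → R x z)
    (hr' : ∀ x, R' x x) (ht' : ∀ x y z, R' x y → R' y z → R' x z)
    (hle : ∀ x y, R x y → R' x y) {T : Finset V} (hT : T ⊆ srcs A R)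
    (hw : ∀ t ∈ T, ∃ w ∈ A, ¬ R w t ∧ R' w t) :
    (cmps A R').card + (T.filter (fun t => ∃ s ∈ srcs A R', R' t s ∧
      ∀ u ∈ srcs A R, R' u s → u = t)).card ≤ (cmps A R).card := by
  set T0 := T.filter (fun t => ∃ s ∈ srcs A R', R' t s ∧ ∀ u ∈ srcs A R, R' u s → u = t)
    with hT0
  have hmaps : ∀ x ∈ cmps A R, rep A R' x ∈ cmps A R' := fun x hx =>
    rep_mem_cmps hr' ht' (cmps_sub hx)
  have hinj : Set.InjOn (rep A R') (T0 : Set V) := by
    intro t htt u huu h
    rw [Finset.mem_coe, hT0, Finset.mem_filter] at htt huu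
    obtain ⟨s, hs, h1, h2⟩ := htt.2
    have htA : t ∈ A := srcs_sub (hT htt.1)
    have huA : u ∈ A := srcs_sub (hT huu.1)
    obtain ⟨h3, h4⟩ := rep_eq_imp hr' ht' htA huA h
    exact (h2 u (hT huu.1) (ht' _ _ _ h4 h1)).symm
  have hT0c : (T0.image (rep A R')).card = T0.card := Finset.card_image_of_injOn hinj
  rw [Finset.card_eq_sum_card_fiberwise hmaps, ← hT0c]
  have hsub : T0.image (rep A R') ⊆ cmps A R' := by
    intro x hx
    rw [Finset.mem_image] at hx
    obtain ⟨t, h1, h2⟩ := hx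
    rw [← h2]
    rw [hT0, Finset.mem_filter] at h1
    exact rep_mem_cmps hr' ht' (srcs_sub (hT h1.1))
  have hcard : (cmps A R').card + (T0.image (rep A R')).card =
      ∑ s ∈ cmps A R', (1 + if s ∈ T0.image (rep A R') then 1 else 0) := by
    rw [Finset.sum_add_distrib, Finset.sum_const, smul_eq_mul, mul_one, Finset.sum_ite_mem,
      Finset.inter_eq_right.2 hsub, Finset.sum_const, smul_eq_mul, mul_one]
  rw [hcard]
  refine Finset.sum_le_sum fun s hs => ?_
  have hsA : s ∈ A := cmps_sub hs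
  have hrs : rep A R s ∈ cmps A R := rep_mem_cmps hr ht hsA
  obtain ⟨k1, k2, k3, k4⟩ := rep_spec hr hsA
  have hfib : rep A R s ∈ (cmps A R).filter (fun x => rep A R' x = s) := by
    rw [Finset.mem_filter]
    refine ⟨hrs, ?_⟩
    rw [rep_eq hr' ht' k1 hsA (hle _ _ k2) (hle _ _ k3)]
    exact rep_cmps hr' hs
  by_cases hc : s ∈ T0.image (rep A R')
  · rw [if_pos hc]
    rw [Finset.mem_image] at hc
    obtain ⟨t, h1, h2⟩ := hc
    rw [hT0, Finset.mem_filter] at h1
    obtain ⟨hTt, s1, hs1, h3, h4⟩ := h1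
    have htA : t ∈ A := srcs_sub (hT hTt)
    obtain ⟨w, hwA, h5, h6⟩ := hw t hTt
    have h7 := (mem_srcs.1 hs1).2
    have h8 : R' s1 w := (h7 w hwA (ht' _ _ _ h6 h3)).1
    have h9 : R' t w := ht' _ _ _ h3 h8
    have e1 : rep A R t = t := rep_cmps hr (srcs_sub_cmps (hT hTt))
    have hne : rep A R w ≠ t := by
      intro h
      have h10 := (rep_spec hr hwA).2.2.1
      rw [h] at h10
      exact h5 h10
    have h11 : 1 < ((cmps A R).filter (fun x => rep A R' x = s)).card := by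
      rw [Finset.one_lt_card]
      refine ⟨rep A R w, ?_, t, ?_, hne⟩
      · rw [Finset.mem_filter]
        refine ⟨rep_mem_cmps hr ht hwA, ?_⟩
        obtain ⟨j1, j2, j3, j4⟩ := rep_spec hr hwA
        rw [rep_eq hr' ht' j1 hwA (hle _ _ j2) (hle _ _ j3), rep_eq hr' ht' hwA htA h6 h9]
        exact h2
      · rw [Finset.mem_filter]
        exact ⟨srcs_sub_cmps (hT hTt), h2⟩
    omega
  · rw [if_neg hc]
    have := Finset.card_pos.2 ⟨_, hfib⟩
    omega

/-- (L3), part 2 -/
theorem drop_srcs (hr : ∀ x, R x x) (ht : ∀ x y z, R x y → R y z → R x z)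
    (ht' : ∀ x y z, R' x y → R' y z → R' x z)
    (hle : ∀ x y, R x y → R' x y) {T : Finset V} (hT : T ⊆ srcs A R) :
    2 * (srcs A R').card + (T.filter (fun t => ¬ ∃ s ∈ srcs A R', R' t s ∧
      ∀ u ∈ srcs A R, R' u s → u = t)).card ≤ 2 * (srcs A R).card := by
  set T1 := T.filter (fun t => ¬ ∃ s ∈ srcs A R', R' t s ∧ ∀ u ∈ srcs A R, R' u s → u = t)
    with hT1
  have hne : ∀ s ∈ srcs A R', 1 ≤ (olds A R R' s).card := by
    intro s hs
    obtain ⟨u, hu, h1⟩ := exists_srcs hr ht (srcs_sub hs)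
    exact Finset.card_pos.2 ⟨u, mem_olds.2 ⟨hu, hle _ _ h1⟩⟩
  have hdisj : ∀ s ∈ srcs A R', ∀ s' ∈ srcs A R', s ≠ s' →
      Disjoint (olds A R R' s) (olds A R R' s') := by
    intro s hs s' hs' hss
    rw [Finset.disjoint_left]
    intro u h1 h2
    rw [mem_olds] at h1 h2
    apply hss
    have huA : u ∈ A := srcs_sub h1.1
    have a1 := ((mem_srcs.1 hs).2 u huA h1.2).1
    have a2 := ((mem_srcs.1 hs').2 u huA h2.2).1
    have b1 : R' s s' := ht' _ _ _ a1 h2.2
    have b2 : R' s' s := ht' _ _ _ a2 h1.2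
    exact le_antisymm ((mem_srcs.1 hs).2 s' (srcs_sub hs') b2).2
      ((mem_srcs.1 hs').2 s (srcs_sub hs) b1).2
  -- the union of the `olds` and the part of `T1` outside
  set U := (srcs A R').biUnion (olds A R R') with hU
  have hUc : U.card = ∑ s ∈ srcs A R', (olds A R R' s).card :=
    Finset.card_biUnion (fun s hs s' hs' h => hdisj s hs s' hs' h)
  have hUs : U ⊆ srcs A R := by
    intro u hu
    rw [hU, Finset.mem_biUnion] at hu
    obtain ⟨s, _, h⟩ := hu
    exact (mem_olds.1 h).1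
  have hT1s : T1 ⊆ srcs A R := (Finset.filter_subset _ _).trans hT
  have h1 : U.card + (T1 \ U).card ≤ (srcs A R).card := by
    rw [← Finset.card_union_of_disjoint Finset.disjoint_sdiff]
    exact Finset.card_le_card (Finset.union_subset hUs (Finset.sdiff_subset.trans hT1s))
  have h2 : (T1 ∩ U).card ≤ ∑ s ∈ (srcs A R').filter (fun s => 2 ≤ (olds A R R' s).card),
      (olds A R R' s).card := by
    refine le_trans (Finset.card_le_card ?_) Finset.card_biUnion_le
    intro t htt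
    rw [Finset.mem_inter, hU, Finset.mem_biUnion] at htt
    obtain ⟨hta, s, hs, h3⟩ := htt
    rw [Finset.mem_biUnion]
    refine ⟨s, ?_, h3⟩
    rw [Finset.mem_filter]
    refine ⟨hs, ?_⟩
    rw [hT1, Finset.mem_filter] at hta
    by_contra hcon
    apply hta.2
    refine ⟨s, hs, (mem_olds.1 h3).2, fun u hu hus => ?_⟩
    have h4 : (olds A R R' s).card ≤ 1 := by omega
    exact Finset.card_le_one.1 h4 u (mem_olds.2 ⟨hu, hus⟩) t h3
  have h3 : T1.card = (T1 ∩ U).card + (T1 \ U).card := by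
    rw [Finset.card_inter_add_card_sdiff]
  have h4 : 2 * (srcs A R').card + ∑ s ∈ (srcs A R').filter
      (fun s => 2 ≤ (olds A R R' s).card), (olds A R R' s).card ≤
      2 * ∑ s ∈ srcs A R', (olds A R R' s).card := by
    have e1 : 2 * (srcs A R').card + ∑ s ∈ (srcs A R').filter
        (fun s => 2 ≤ (olds A R R' s).card), (olds A R R' s).card =
        ∑ s ∈ srcs A R', (2 + if 2 ≤ (olds A R R' s).card then (olds A R R' s).card else 0) := by
      rw [Finset.sum_add_distrib, Finset.sum_const, smul_eq_mul, Finset.sum_filter,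
        Nat.mul_comm]
    rw [e1, Finset.mul_sum]
    refine Finset.sum_le_sum fun s hs => ?_
    have := hne s hs
    split_ifs <;> omega
  omega

/-- (L3): the drop when arrows from outside enter the source components of `T`. -/
theorem drop (hr : ∀ x, R x x) (ht : ∀ x y z, R x y → R y z → R x z)
    (hr' : ∀ x, R' x x) (ht' : ∀ x y z, R' x y → R' y z → R' x z)
    (hle : ∀ x y, R x y → R' x y) {T : Finset V} (hT : T ⊆ srcs A R)
    (hw : ∀ t ∈ T, ∃ w ∈ A, ¬ R w t ∧ R' w t) :
    2 * (srcs A R').card + (cmps A R').card + T.card ≤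
      2 * (srcs A R).card + (cmps A R).card := by
  have h1 := drop_cmps hr ht hr' ht' hle hT hw
  have h2 := drop_srcs hr ht ht' hle hT
  have h3 : T.card = (T.filter (fun t => ∃ s ∈ srcs A R', R' t s ∧
      ∀ u ∈ srcs A R, R' u s → u = t)).card + (T.filter (fun t => ¬ ∃ s ∈ srcs A R', R' t s ∧
      ∀ u ∈ srcs A R, R' u s → u = t)).card := by
    rw [Finset.card_filter_add_card_filter_not]
  omega

end C0q2
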