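import Pool.Agent.W_c0up_h14.DefsG
import Pool.Agent.W_c0q2_h2.Pre

/-!
# MP_c0ce05_co, Q2: sources and derived vertices (section 8 of proofs row 518)

For `R ⊆ A`: digraph on `A` with the arrows `Ar P R` (`a → y` iff `y` is an end point of `p(ar)` or
of an edge `f` with `p(f) = ar`, `r ∈ R`). If `R` is chosen greedily then the number of sources
inside `A` is at most `q * (number of derived vertices) + q * h ^ 2`.
-/

set_option autoImplicit false

namespace C0q2

open scoped Classical
open C0lo C0st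

variable {N : ℕ} {P : GP N} {A R : Finset (Fin N)} {Dl : ℕ}

/-- reachability inside `A` -/
def Rr (P : GP N) (R A : Finset (Fin N)) : Fin N → Fin N → Prop :=
  Relation.ReflTransGen (fun u v => u ∈ A ∧ v ∈ A ∧ Ar P R u v)

theorem Rr_refl (x : Fin N) : Rr P R A x x := Relation.ReflTransGen.refl

theorem Rr_trans (x y z : Fin N) (h : Rr P R A x y) (h' : Rr P R A y z) : Rr P R A x z :=
  Relation.ReflTransGen.trans h h'

theorem Rr_one {x y : Fin N} (hx : x ∈ A) (hy : y ∈ A) (h : Ar P R x y) : Rr P R A x y :=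
  Relation.ReflTransGen.single ⟨hx, hy, h⟩

theorem Rr_mono {R' : Finset (Fin N)} (hR : R ⊆ R') (x y : Fin N) (h : Rr P R A x y) :
    Rr P R' A x y := by
  have hm : ∀ u v : Fin N, (u ∈ A ∧ v ∈ A ∧ Ar P R u v) → (u ∈ A ∧ v ∈ A ∧ Ar P R' u v) := by
    rintro u v ⟨h1, h2, r, h3, h4⟩
    exact ⟨h1, h2, r, hR h3, h4⟩
  exact Relation.ReflTransGen.mono hm x y h

/-- the pairs `(e, p(e))` inside `A` -/
noncomputable def Din (P : GP N) (A : Finset (Fin N)) :
    Finset (Sym2 (Fin N) × Sym2 (Fin N)) :=
  P.db.filter (fun d => d.1 ∈ ed A ∧ d.2 ∈ ed A)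

/-- the least representative of the strong component of `x` in `A` -/
noncomputable def rp (P : GP N) (R A : Finset (Fin N)) : Fin N → Fin N := rep A (Rr P R A)

/-- least representatives of the source components -/
noncomputable def gs (P : GP N) (R A : Finset (Fin N)) : Finset (Fin N) := srcs A (Rr P R A)

/-- least representatives of the components -/
noncomputable def cs (P : GP N) (R A : Finset (Fin N)) : Finset (Fin N) := cmps A (Rr P R A)

/-- the escaping blocks -/
noncomputable def esc (P : GP N) (R A : Finset (Fin N)) : Finset (Sym2 (Fin N)) :=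
  (ed (gs P R A)).filter (fun z => ∃ d ∈ Din P A, d.1.map (rp P R A) = z ∧
    d.2.map (rp P R A) ≠ z)

/-- the source components which get an arrow from outside when `v` is pinned -/
noncomputable def Hit (P : GP N) (R A : Finset (Fin N)) (v : Fin N) : Finset (Fin N) :=
  (gs P R A).filter (fun t => ∃ w ∈ A, ¬ Rr P R A w t ∧ Rr P (insert v R) A w t)

theorem mem_Din {d : Sym2 (Fin N) × Sym2 (Fin N)} :
    d ∈ Din P A ↔ d ∈ P.db ∧ d.1 ∈ ed A ∧ d.2 ∈ ed A := by
  unfold Din
  rw [Finset.mem_filter]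

theorem rp_gs {x : Fin N} (hx : x ∈ gs P R A) : rp P R A x = x :=
  rep_cmps (Rr_refl (P := P) (R := R) (A := A)) (srcs_sub_cmps hx)

theorem gs_sub : gs P R A ⊆ A := srcs_sub

/-- (L1): the number of sources. -/
theorem card_Din_le (hP : P.Valid Dl) :
    (Din P A).card + (gs P R A).card.choose 2 ≤ A.card.choose 2 + (esc P R A).card := by
  obtain ⟨t, ht⟩ := hP.acyc
  set S := (Din P A).image Prod.fst with hS
  have hSc : S.card = (Din P A).card := by
    refine Finset.card_image_of_injOn ?_
    intro d hd d' hd' h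
    rw [Finset.mem_coe, mem_Din] at hd hd'
    exact hP.fn d hd.1 d' hd'.1 h
  have key : ∀ z ∈ ed (gs P R A) \ esc P R A, ∃ e ∈ ed A, e ∉ S ∧ e.map (rp P R A) = z := by
    intro z hz
    rw [Finset.mem_sdiff] at hz
    have hzg := mem_ed.1 hz.1
    have hfz : z.map (rp P R A) = z := by
      have : z.map (rp P R A) = z.map id := by
        refine Sym2.map_congr ?_
        intro x hx
        exact rp_gs (hzg.1 x hx)
      rw [this, Sym2.map_id]
      rfl
    have hzA : z ∈ ed A := ed_mono gs_sub hz.1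
    have hne : ((ed A).filter (fun e => e.map (rp P R A) = z)).Nonempty :=
      ⟨z, Finset.mem_filter.2 ⟨hzA, hfz⟩⟩
    obtain ⟨e, he, hmax⟩ := Finset.exists_max_image _ t hne
    rw [Finset.mem_filter] at he
    refine ⟨e, he.1, ?_, he.2⟩
    intro hcon
    rw [hS, Finset.mem_image] at hcon
    obtain ⟨d, hd, hde⟩ := hcon
    have hd' := mem_Din.1 hd
    have h1 : d.2.map (rp P R A) = z := by
      by_contra h
      apply hz.2
      unfold esc
      rw [Finset.mem_filter]
      refine ⟨hz.1, d, hd, ?_, h⟩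
      rw [hde]
      exact he.2
    have h2 := hmax d.2 (Finset.mem_filter.2 ⟨hd'.2.2, h1⟩)
    have h3 := ht d hd'.1
    rw [hde] at h3
    omega
  choose f hf1 hf2 hf3 using key
  -- the image of the non escaping blocks
  set Im := (ed (gs P R A) \ esc P R A).attach.image (fun z => f z.1 z.2) with hIm
  have hImc : Im.card = (ed (gs P R A) \ esc P R A).card := by
    rw [hIm, Finset.card_image_of_injective, Finset.card_attach]
    intro z z' h
    beta_reduce at h
    apply Subtype.ext
    rw [← hf3 z.1 z.2, ← hf3 z'.1 z'.2, h]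
  have hdisj : Disjoint S Im := by
    rw [Finset.disjoint_right]
    intro e he
    rw [hIm, Finset.mem_image] at he
    obtain ⟨z, _, hz⟩ := he
    rw [← hz]
    exact hf2 z.1 z.2
  have hsub : S ∪ Im ⊆ ed A := by
    refine Finset.union_subset ?_ ?_
    · intro e he
      rw [hS, Finset.mem_image] at he
      obtain ⟨d, hd, hde⟩ := he
      rw [← hde]
      exact (mem_Din.1 hd).2.1
    · intro e he
      rw [hIm, Finset.mem_image] at he
      obtain ⟨z, _, hz⟩ := he
      rw [← hz]
      exact hf1 z.1 z.2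
  have h1 := Finset.card_le_card hsub
  rw [Finset.card_union_of_disjoint hdisj, hSc, hImc, card_ed] at h1
  have h2 : (ed (gs P R A)).card ≤ (ed (gs P R A) \ esc P R A).card + (esc P R A).card := by
    have := Finset.le_card_sdiff (esc P R A) (ed (gs P R A))
    omega
  rw [card_ed] at h2
  omega

theorem NN_fst {d : Sym2 (Fin N) × Sym2 (Fin N)} (hd : d ∈ P.db) {x : Fin N} (hx : x ∈ d.1) :
    x ∈ NN P d.2 := by
  unfold NN
  rw [Finset.mem_filter]
  exact ⟨Finset.mem_univ _, d, hd, Or.inr ⟨rfl, hx⟩⟩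

/-- an arrow from outside makes a hit -/
theorem mem_Hit {v w u t : Fin N} (ht : t ∈ gs P R A) (hw : w ∈ A) (hu : u ∈ A)
    (hut : Rr P R A u t) (hwt : ¬ Rr P R A w t) (har : Ar P (insert v R) w u) :
    t ∈ Hit P R A v := by
  unfold Hit
  rw [Finset.mem_filter]
  refine ⟨ht, w, hw, hwt, ?_⟩
  exact Rr_trans _ _ _ (Rr_one hw hu har) (Rr_mono (Finset.subset_insert _ _) _ _ hut)

/-- (L2) for one block -/
theorem esc_cases {z : Sym2 (Fin N)} (hz : z ∈ esc P R A) :
    (∃ v ∈ A, ∀ t ∈ z, t ∈ Hit P R A v) ∨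
      (∃ v ∈ A, ∃ y ∈ Hit P R A v, z = s(rp P R A v, y)) := by
  have hr := Rr_refl (P := P) (R := R) (A := A)
  have htr := Rr_trans (P := P) (R := R) (A := A)
  unfold esc at hz
  rw [Finset.mem_filter] at hz
  obtain ⟨hzg, d, hd, h1, h2⟩ := hz
  rw [mem_Din] at hd
  obtain ⟨hdb, hd1, hd2⟩ := hd
  obtain ⟨e, f⟩ := d
  simp only at h1 h2 hd1 hd2
  induction e using Sym2.ind with
  | _ a b =>
  induction f using Sym2.ind with
  | _ c d' =>
  rw [Sym2.map_mk] at h1 h2
  have haA : a ∈ A := (mem_ed.1 hd1).1 a (Sym2.mem_mk_left _ _)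
  have hbA : b ∈ A := (mem_ed.1 hd1).1 b (Sym2.mem_mk_right _ _)
  have hcA : c ∈ A := (mem_ed.1 hd2).1 c (Sym2.mem_mk_left _ _)
  have hdA : d' ∈ A := (mem_ed.1 hd2).1 d' (Sym2.mem_mk_right _ _)
  have hx : rp P R A a ∈ gs P R A := (mem_ed.1 hzg).1 _ (by rw [← h1]; exact Sym2.mem_mk_left _ _)
  have hy : rp P R A b ∈ gs P R A := (mem_ed.1 hzg).1 _ (by rw [← h1]; exact Sym2.mem_mk_right _ _)
  have hxy : rp P R A a ≠ rp P R A b := by
    intro h
    apply (mem_ed.1 hzg).2
    rw [← h1]
    exact h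
  have ha := rep_spec hr haA
  have hb := rep_spec hr hbA
  -- membership in a source component
  have src : ∀ t ∈ gs P R A, ∀ w ∈ A, Rr P R A w t → rp P R A w = t := by
    intro t ht w hw hwt
    have h3 := ((mem_srcs.1 ht).2 w hw hwt).1
    have h4 : rp P R A w = rp P R A t := rep_eq hr htr hw (gs_sub ht) hwt h3
    rw [h4]
    exact rp_gs ht
  -- the arrows after pinning `v ∈ p(e)`
  have arr : ∀ v w : Fin N, s(w, v) = s(c, d') → ∀ u ∈ s(a, b), Ar P (insert v R) w u := by
    intro v w hvw u hu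
    refine ⟨v, Finset.mem_insert_self _ _, ?_⟩
    rw [hvw]
    exact NN_fst hdb hu
  have hita : ∀ v w : Fin N, s(w, v) = s(c, d') → w ∈ A → rp P R A w ≠ rp P R A a →
      rp P R A a ∈ Hit P R A v := by
    intro v w hvw hwA hne
    refine mem_Hit hx hwA haA ha.2.2.1 (fun h => hne (src _ hx w hwA h)) (arr v w hvw a ?_)
    exact Sym2.mem_mk_left _ _
  have hitb : ∀ v w : Fin N, s(w, v) = s(c, d') → w ∈ A → rp P R A w ≠ rp P R A b →
      rp P R A b ∈ Hit P R A v := by
    intro v w hvw hwA hne
    refine mem_Hit hy hwA hbA hb.2.2.1 (fun h => hne (src _ hy w hwA h)) (arr v w hvw b ?_)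
    exact Sym2.mem_mk_right _ _
  by_cases c1 : rp P R A c = rp P R A a
  · -- `c` in the component of `a`
    right
    have h3 : rp P R A d' ≠ rp P R A b := by
      intro h
      apply h2
      rw [c1, h, h1]
    refine ⟨c, hcA, rp P R A b, hitb c d' Sym2.eq_swap hdA h3, ?_⟩
    rw [c1, h1]
  · by_cases c2 : rp P R A c = rp P R A b
    · right
      have h3 : rp P R A d' ≠ rp P R A a := by
        intro h
        apply h2
        rw [c2, h, Sym2.eq_swap, h1]
      refine ⟨c, hcA, rp P R A a, hita c d' Sym2.eq_swap hdA h3, ?_⟩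
      rw [c2, Sym2.eq_swap, h1]
    · by_cases c3 : rp P R A d' = rp P R A a
      · right
        refine ⟨d', hdA, rp P R A b, hitb d' c rfl hcA c2, ?_⟩
        rw [c3, h1]
      · by_cases c4 : rp P R A d' = rp P R A b
        · right
          refine ⟨d', hdA, rp P R A a, hita d' c rfl hcA c1, ?_⟩
          rw [c4, Sym2.eq_swap, h1]
        · left
          refine ⟨c, hcA, fun t htz => ?_⟩
          rw [← h1] at htz
          rcases Sym2.mem_iff.1 htz with h | h
          · rw [h]
            exact hita c d' Sym2.eq_swap hdA c3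
          · rw [h]
            exact hitb c d' Sym2.eq_swap hdA c4

/-- (L2): few hits, few escaping blocks. -/
theorem card_esc_le {h : ℕ} (hh : ∀ v ∈ A, (Hit P R A v).card ≤ h) :
    (esc P R A).card ≤ A.card * h ^ 2 := by
  have hsub : esc P R A ⊆ (A.biUnion (fun v => ed (Hit P R A v))) ∪
      (A.biUnion (fun v => (Hit P R A v).image (fun y => s(rp P R A v, y)))) := by
    intro z hz
    have hz' := hz
    unfold esc at hz'
    rw [Finset.mem_filter] at hz'
    rw [Finset.mem_union]
    rcases esc_cases hz with ⟨v, hv, h1⟩ | ⟨v, hv, y, hy, h1⟩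
    · left
      rw [Finset.mem_biUnion]
      exact ⟨v, hv, mem_ed.2 ⟨h1, (mem_ed.1 hz'.1).2⟩⟩
    · right
      rw [Finset.mem_biUnion]
      exact ⟨v, hv, Finset.mem_image.2 ⟨y, hy, h1.symm⟩⟩
  have h1 : (A.biUnion (fun v => ed (Hit P R A v))).card ≤ A.card * h.choose 2 := by
    refine Finset.card_biUnion_le_card_mul _ _ _ fun v hv => ?_
    rw [card_ed]
    exact Nat.choose_le_choose 2 (hh v hv)
  have h2 : (A.biUnion (fun v => (Hit P R A v).image (fun y => s(rp P R A v, y)))).card ≤
      A.card * h := by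
    refine Finset.card_biUnion_le_card_mul _ _ _ fun v hv => ?_
    exact Finset.card_image_le.trans (hh v hv)
  have h3 := (Finset.card_le_card hsub).trans (Finset.card_union_le _ _)
  have h4 : h.choose 2 + h ≤ h ^ 2 := by
    rcases Nat.eq_zero_or_pos h with h0 | h0
    · subst h0
      decide
    · rw [Nat.choose_two_right]
      have h5 : h * (h - 1) / 2 * 2 ≤ h * (h - 1) := Nat.div_mul_le_self _ _
      obtain ⟨k, rfl⟩ : ∃ k, h = k + 1 := ⟨h - 1, by omega⟩
      have h6 : k + 1 - 1 = k := by omega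
      rw [h6] at h5 ⊢
      nlinarith
  calc (esc P R A).card ≤ A.card * h.choose 2 + A.card * h := by omega
    _ = A.card * (h.choose 2 + h) := by ring
    _ ≤ A.card * h ^ 2 := Nat.mul_le_mul_left _ h4

/-- (L3) for one pin -/
theorem drop_pin (v : Fin N) :
    2 * (gs P (insert v R) A).card + (cs P (insert v R) A).card + (Hit P R A v).card ≤
      2 * (gs P R A).card + (cs P R A).card := by
  refine drop Rr_refl Rr_trans Rr_refl Rr_trans
    (fun x y h => Rr_mono (Finset.subset_insert _ _) x y h) (Finset.filter_subset _ _) ?_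
  intro t ht
  unfold Hit at ht
  rw [Finset.mem_filter] at ht
  exact ht.2

/-- the greedy choice of the pins -/
theorem greedy (P : GP N) (A : Finset (Fin N)) (h k : ℕ) :
    ∃ R ⊆ A, R.card ≤ k ∧ ((esc P R A).card ≤ A.card * h ^ 2 ∨
      k * (h + 1) + (2 * (gs P R A).card + (cs P R A).card) ≤ 3 * A.card) := by
  induction k with
  | zero =>
    refine ⟨∅, Finset.empty_subset _, by simp, Or.inr ?_⟩
    have h1 : (gs P ∅ A).card ≤ A.card := Finset.card_le_card gs_sub
    have h2 : (cs P ∅ A).card ≤ A.card := Finset.card_le_card cmps_sub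
    omega
  | succ k ih =>
    obtain ⟨R, hRA, hRk, hor⟩ := ih
    rcases hor with h1 | h1
    · exact ⟨R, hRA, by omega, Or.inl h1⟩
    · by_cases hall : ∀ v ∈ A, (Hit P R A v).card ≤ h
      · exact ⟨R, hRA, by omega, Or.inl (card_esc_le hall)⟩
      · push Not at hall
        obtain ⟨v, hv, h2⟩ := hall
        refine ⟨insert v R, Finset.insert_subset hv hRA, ?_, Or.inr ?_⟩
        · exact (Finset.card_insert_le _ _).trans (by omega)
        · have h3 := drop_pin (P := P) (R := R) (A := A) v
          have h4 : (k + 1) * (h + 1) = k * (h + 1) + (h + 1) := by ring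
          omega

end C0q2
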