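import Pool.Agent.W_c0q2_h2.Comb

/-!
# MP_c0ce05_co, Q2: derived vertices, output of section 8 of proofs row 518
-/

set_option autoImplicit false

namespace C0q2

open scoped Classical
open C0lo C0st

variable {N : ℕ} {P : GP N} {A R : Finset (Fin N)} {Dl : ℕ}

/-- Every vertex of `Dr` has an arrow (of the relation `ar`) from an earlier vertex of `A`. -/
def Derv {V : Type} (ar : V → V → Prop) (A Dr : Finset V) : Prop :=
  ∃ f : V → ℕ, Function.Injective f ∧ ∀ y ∈ Dr, ∃ x ∈ A, ar x y ∧ f x < f y

theorem Derv.sub {V : Type} {ar : V → V → Prop} {A Dr Dr' : Finset V} (h : Derv ar A Dr)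
    (hs : Dr' ⊆ Dr) : Derv ar A Dr' := by
  obtain ⟨f, hf, h1⟩ := h
  exact ⟨f, hf, fun y hy => h1 y (hs hy)⟩

/-- reached from the representatives of the source components in `n` steps -/
def Stp (P : GP N) (R A : Finset (Fin N)) : ℕ → Fin N → Prop
  | 0, y => y ∈ gs P R A
  | (n + 1), y => ∃ x ∈ A, Stp P R A n x ∧ Ar P R x y

theorem exists_Stp {y : Fin N} (hy : y ∈ A) : ∃ n, Stp P R A n y := by
  obtain ⟨s, hs, hsy⟩ := exists_srcs (Rr_refl (P := P) (R := R) (A := A)) Rr_trans hy
  have h : ∀ z, Rr P R A s z → ∃ n, Stp P R A n z := by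
    intro z hz
    induction hz with
    | refl => exact ⟨0, hs⟩
    | tail _ h2 ih =>
      obtain ⟨n, hn⟩ := ih
      exact ⟨n + 1, _, h2.1, hn, h2.2.2⟩
  exact h y hsy

/-- All vertices of `A` except the representatives of the source components are derived. -/
theorem derv_sdiff (P : GP N) (R A : Finset (Fin N)) : Derv (Ar P R) A (A \ gs P R A) := by
  set g : Fin N → ℕ := fun y => if h : ∃ n, Stp P R A n y then Nat.find h else 0 with hg
  refine ⟨fun y => g y * N + (y : ℕ), ?_, ?_⟩
  · intro x y hxy
    beta_reduce at hxy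
    have hx := x.2
    have hy := y.2
    have h1 : (g x * N + (x : ℕ)) % N = (g y * N + (y : ℕ)) % N := by rw [hxy]
    rw [Nat.mul_add_mod_self_right, Nat.mul_add_mod_self_right, Nat.mod_eq_of_lt hx,
      Nat.mod_eq_of_lt hy] at h1
    exact Fin.ext h1
  · intro y hy
    rw [Finset.mem_sdiff] at hy
    have hn := exists_Stp (P := P) (R := R) hy.1
    have h1 : g y = Nat.find hn := by
      rw [hg]
      beta_reduce
      rw [dif_pos hn]
    have h2 := Nat.find_spec hn
    rw [← h1] at h2
    obtain ⟨m, hm⟩ : ∃ m, g y = m + 1 := by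
      rcases Nat.eq_zero_or_pos (g y) with h0 | h0
      · rw [h0] at h2
        exact absurd h2 hy.2
      · exact ⟨g y - 1, by omega⟩
    rw [hm] at h2
    obtain ⟨x, hxA, hx1, hx2⟩ := h2
    refine ⟨x, hxA, hx2, ?_⟩
    have h3 : g x ≤ m := by
      have hxn : ∃ n, Stp P R A n x := ⟨m, hx1⟩
      rw [hg]
      beta_reduce
      rw [dif_pos hxn]
      exact Nat.find_min' hxn hx1
    have h4 : g x * N ≤ m * N := Nat.mul_le_mul_right _ h3
    have h5 : (m + 1) * N = m * N + N := by ring
    have := x.2
    beta_reduce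
    rw [hm, h5]
    omega

/-- Section 8 of proofs row 518: `k` pins `R` inside `A` such that `Dr` is derived from `A - Dr`
and either the number of pairs `(e, p(e))` inside `A` is at most `|A| (|Dr| + h ^ 2)` or
`|Dr| ≥ k (h + 1) / 3`. -/
theorem exists_pins (hP : P.Valid Dl) (A : Finset (Fin N)) (h k : ℕ) :
    ∃ R ⊆ A, R.card ≤ k ∧ ∃ Dr ⊆ A, Derv (Ar P R) A Dr ∧
      ((P.db.filter (fun d => d.1 ∈ ed A ∧ d.2 ∈ ed A)).card ≤ A.card * (Dr.card + h ^ 2) ∨
        k * (h + 1) ≤ 3 * Dr.card) := by
  obtain ⟨R, hRA, hRk, hor⟩ := greedy P A h k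
  refine ⟨R, hRA, hRk, A \ gs P R A, Finset.sdiff_subset, derv_sdiff P R A, ?_⟩
  have hg : (gs P R A).card ≤ A.card := Finset.card_le_card gs_sub
  have hc : (gs P R A).card ≤ (cs P R A).card := Finset.card_le_card srcs_sub_cmps
  have hd : (A \ gs P R A).card = A.card - (gs P R A).card :=
    Finset.card_sdiff_of_subset gs_sub
  rcases hor with h1 | h1
  · left
    have h2 := card_Din_le (R := R) (A := A) hP
    change (Din P A).card ≤ _
    have h3 : A.card.choose 2 ≤ (gs P R A).card.choose 2 + A.card * (A \ gs P R A).card := by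
      rw [hd]
      obtain ⟨m, hm⟩ : ∃ m, A.card = (gs P R A).card + m := ⟨A.card - (gs P R A).card, by omega⟩
      rw [hm]
      generalize (gs P R A).card = g
      clear * -
      have e1 : g + m - g = m := by omega
      rw [e1]
      clear e1
      induction m with
      | zero => simp
      | succ m ih =>
        have e2 : g + (m + 1) = (g + m) + 1 := by ring
        rw [e2, Nat.choose_succ_succ' (g + m) 1, Nat.choose_one_right]
        have e3 : (g + m + 1) * (m + 1) = (g + m) * m + (g + m) + m + 1 := by ring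
        have e4 : (1 : ℕ) + 1 = 2 := rfl
        rw [e3, e4]
        omega
    calc (Din P A).card ≤ A.card * (A \ gs P R A).card + (esc P R A).card := by omega
      _ ≤ A.card * (A \ gs P R A).card + A.card * h ^ 2 := by omega
      _ = _ := by ring
  · right
    omega

/-- the out-neighbours of `W` -/
noncomputable def outs {V : Type} [Fintype V] (ar : V → V → Prop) (W : Finset V) : Finset V :=
  W.biUnion (fun x => Finset.univ.filter (fun y => ar x y))

/-- Fibre count: at most `(n D) ^ d` sets with `d` elements are derived from `W`. -/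
theorem card_derv_le {V : Type} [Fintype V] (ar : V → V → Prop) (D : ℕ)
    (hD : ∀ x, (Finset.univ.filter (fun y => ar x y)).card ≤ D) (d n : ℕ) (W : Finset V)
    (hn : W.card + d ≤ n) :
    ((Finset.univ : Finset (Finset V)).filter (fun S => S.card = d ∧ Disjoint S W ∧
      Derv ar (W ∪ S) S)).card ≤ (n * D) ^ d := by
  induction d generalizing W with
  | zero =>
    rw [pow_zero]
    refine Finset.card_le_one.2 ?_
    intro a ha b hb
    rw [Finset.mem_filter] at ha hb
    rw [Finset.card_eq_zero.1 ha.2.1, Finset.card_eq_zero.1 hb.2.1]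
  | succ d ih =>
    have hsub : ((Finset.univ : Finset (Finset V)).filter (fun S => S.card = d + 1 ∧
        Disjoint S W ∧ Derv ar (W ∪ S) S)) ⊆ ((outs ar W) \ W).biUnion (fun y =>
          ((Finset.univ : Finset (Finset V)).filter (fun S => S.card = d ∧
            Disjoint S (insert y W) ∧ Derv ar (insert y W ∪ S) S)).image (insert y)) := by
      intro S hS
      rw [Finset.mem_filter] at hS
      obtain ⟨-, hSc, hdis, f, hf, hder⟩ := hS
      have hne : S.Nonempty := Finset.card_pos.1 (by omega)
      obtain ⟨y, hy, hmin⟩ := Finset.exists_min_image S f hne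
      obtain ⟨x, hx, hxy, hlt⟩ := hder y hy
      have hxW : x ∈ W := by
        rcases Finset.mem_union.1 hx with h | h
        · exact h
        · exact absurd (hmin x h) (not_le.2 hlt)
      have hyW : y ∉ W := fun h => Finset.disjoint_left.1 hdis hy h
      rw [Finset.mem_biUnion]
      refine ⟨y, ?_, ?_⟩
      · rw [Finset.mem_sdiff]
        refine ⟨?_, hyW⟩
        unfold outs
        rw [Finset.mem_biUnion]
        exact ⟨x, hxW, Finset.mem_filter.2 ⟨Finset.mem_univ _, hxy⟩⟩
      · rw [Finset.mem_image]
        refine ⟨S.erase y, ?_, Finset.insert_erase hy⟩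
        rw [Finset.mem_filter]
        refine ⟨Finset.mem_univ _, ?_, ?_, f, hf, ?_⟩
        · rw [Finset.card_erase_of_mem hy, hSc]
          rfl
        · rw [Finset.disjoint_left]
          intro z hz hz'
          rw [Finset.mem_erase] at hz
          rcases Finset.mem_insert.1 hz' with h | h
          · exact hz.1 h
          · exact Finset.disjoint_left.1 hdis hz.2 h
        · intro z hz
          rw [Finset.mem_erase] at hz
          obtain ⟨u, hu, huz, hlt'⟩ := hder z hz.2
          refine ⟨u, ?_, huz, hlt'⟩
          rw [Finset.mem_union, Finset.mem_insert, Finset.mem_erase]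
          rcases Finset.mem_union.1 hu with h | h
          · exact Or.inl (Or.inr h)
          · by_cases huy : u = y
            · exact Or.inl (Or.inl huy)
            · exact Or.inr ⟨huy, h⟩
    refine (Finset.card_le_card hsub).trans ?_
    have h1 : ((outs ar W) \ W).card ≤ n * D := by
      refine (Finset.card_le_card Finset.sdiff_subset).trans ?_
      unfold outs
      refine (Finset.card_biUnion_le_card_mul _ _ D fun x _ => hD x).trans ?_
      exact Nat.mul_le_mul_right _ (by omega)
    have h2 : ∀ y ∈ (outs ar W) \ W, (((Finset.univ : Finset (Finset V)).filter (fun S =>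
        S.card = d ∧ Disjoint S (insert y W) ∧ Derv ar (insert y W ∪ S) S)).image
          (insert y)).card ≤ (n * D) ^ d := by
      intro y hy
      refine Finset.card_image_le.trans (ih (insert y W) ?_)
      have := Finset.card_insert_le y W
      omega
    calc _ ≤ ((outs ar W) \ W).card * (n * D) ^ d := Finset.card_biUnion_le_card_mul _ _ _ h2
      _ ≤ (n * D) * (n * D) ^ d := Nat.mul_le_mul_right _ h1
      _ = (n * D) ^ (d + 1) := by ring

/-- out-degrees of the arrows -/
theorem card_Ar_le (hP : P.Valid Dl) (R : Finset (Fin N)) (a : Fin N) :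
    (Finset.univ.filter (fun b => Ar P R a b)).card ≤ R.card * (2 + 2 * Dl) := by
  have h1 : ∀ f : Sym2 (Fin N), (NN P f).card ≤ 2 + 2 * Dl := by
    intro f
    have hs : NN P f ⊆ ((P.db.filter (fun d => d.1 = f)).biUnion (fun d => d.2.toFinset)) ∪
        ((P.db.filter (fun d => d.2 = f)).biUnion (fun d => d.1.toFinset)) := by
      intro x hx
      unfold NN at hx
      rw [Finset.mem_filter] at hx
      obtain ⟨-, d, hd, h2 | h2⟩ := hx
      · refine Finset.mem_union_left _ ?_
        rw [Finset.mem_biUnion]
        exact ⟨d, Finset.mem_filter.2 ⟨hd, h2.1⟩, Sym2.mem_toFinset.2 h2.2⟩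
      · refine Finset.mem_union_right _ ?_
        rw [Finset.mem_biUnion]
        exact ⟨d, Finset.mem_filter.2 ⟨hd, h2.1⟩, Sym2.mem_toFinset.2 h2.2⟩
    have ht : ∀ e : Sym2 (Fin N), e.toFinset.card ≤ 2 := by
      intro e
      induction e using Sym2.ind with
      | _ a b =>
        rw [Sym2.toFinset_mk_eq]
        exact Finset.card_le_two
    have h2 : (P.db.filter (fun d => d.1 = f)).card ≤ 1 := by
      refine Finset.card_le_one.2 ?_
      intro d hd d' hd'
      rw [Finset.mem_filter] at hd hd'
      exact hP.fn d hd.1 d' hd'.1 (by rw [hd.2, hd'.2])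
    have h3 := hP.indeg f
    refine (Finset.card_le_card hs).trans ((Finset.card_union_le _ _).trans ?_)
    have h4 := Finset.card_biUnion_le_card_mul (P.db.filter (fun d => d.1 = f))
      (fun d => d.2.toFinset) 2 (fun d _ => ht d.2)
    have h5 := Finset.card_biUnion_le_card_mul (P.db.filter (fun d => d.2 = f))
      (fun d => d.1.toFinset) 2 (fun d _ => ht d.1)
    omega
  have h2 : (Finset.univ.filter (fun b => Ar P R a b)) ⊆ R.biUnion (fun x => NN P s(a, x)) := by
    intro b hb
    rw [Finset.mem_filter] at hb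
    obtain ⟨-, x, hx, hbx⟩ := hb
    rw [Finset.mem_biUnion]
    exact ⟨x, hx, hbx⟩
  refine (Finset.card_le_card h2).trans ?_
  exact Finset.card_biUnion_le_card_mul _ _ _ fun x _ => h1 _

end C0q2
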