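import Pool.Agent.W_c0q2_h20.Iface
import Pool.Agent.W_c0q2_h2.Der

/-!
# MP_c0ce05_co, Q2: section 8 of proofs row 518 (`S_CL`)
-/

set_option autoImplicit false

namespace C0q2

open scoped Classical
open C0lo C0st

/-- from `Derv` to `Derq` -/
theorem Derq_of_Derv {N : ℕ} {P : GP N} {R A Dr : Finset (Fin N)} (hDr : Dr ⊆ A)
    (h : Derv (Ar P R) A Dr) : Derq P R A Dr := by
  obtain ⟨f0, _, h1⟩ := h
  refine ⟨hDr, fun y => if hy : y ∈ Dr then (h1 y hy).choose else y,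
    fun y => Finset.univ.sup f0 - f0 y, ?_⟩
  intro y hy
  obtain ⟨h2, h3, h4⟩ := (h1 y hy).choose_spec
  have he : (if hy : y ∈ Dr then (h1 y hy).choose else y) = (h1 y hy).choose := dif_pos hy
  beta_reduce
  rw [he]
  refine ⟨h2, h3, fun _ => ?_⟩
  have h5 : f0 y ≤ Finset.univ.sup f0 := Finset.le_sup (f := f0) (Finset.mem_univ y)
  omega

/-- **Section 8** of proofs row 518 -/
theorem s_CL : S_CL := by
  intro N q L l P D p hC A hA
  obtain ⟨hbig, ⟨Dl, hV, -⟩, hD, hp1, hp2⟩ := hC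
  obtain ⟨hAq, -, hlk, -⟩ := mem_Fam.1 hA
  have hp0 : 0 < p := by linarith [show (0 : ℝ) < 10 ^ 15 by norm_num]
  have hL0 : 0 < L := by
    have h1 := hbig.l_sm
    have h2 := hbig.l_big
    nlinarith
  have hq2 : (q : ℝ) ≤ 2 * L := by
    have h1 := hbig.q_le
    have h2 := hbig.l_big
    have h3 : (2 : ℝ) * 10 ^ 17 ≥ 10 ^ 16 + 1 := by norm_num
    linarith
  set k : ℕ := ⌊p / 20000⌋₊ with hk
  set h : ℕ := ⌊Real.sqrt (0.14 * p)⌋₊ with hh
  have hk1 : (k : ℝ) ≤ p / 20000 := Nat.floor_le (by positivity)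
  have hk2 : p / 20000 < (k : ℝ) + 1 := Nat.lt_floor_add_one _
  have hh1 : (h : ℝ) ≤ Real.sqrt (0.14 * p) := Nat.floor_le (Real.sqrt_nonneg _)
  have hh2 : Real.sqrt (0.14 * p) < (h : ℝ) + 1 := Nat.lt_floor_add_one _
  have hhsq : (h : ℝ) ^ 2 ≤ 0.14 * p := by
    calc (h : ℝ) ^ 2 ≤ (Real.sqrt (0.14 * p)) ^ 2 := by gcongr
      _ = 0.14 * p := Real.sq_sqrt (by positivity)
  have hs : (10 : ℝ) ^ 7 ≤ Real.sqrt (0.14 * p) := by
    apply Real.le_sqrt_of_sq_le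
    have : ((10 : ℝ) ^ 7) ^ 2 = 10 ^ 14 := by norm_num
    rw [this]
    have h2 : (0.14 : ℝ) * 10 ^ 15 ≤ 0.14 * p := by gcongr
    norm_num at h2 ⊢
    linarith
  obtain ⟨R, hRA, hRk, Dr, hDrA, hder, hor⟩ := exists_pins hV A h k
  refine ⟨R, hRA, ?_, Dr, Derq_of_Derv hDrA hder, ?_⟩
  · have : (R.card : ℝ) ≤ k := by exact_mod_cast hRk
    linarith
  · rcases hor with h1 | h1
    · have h2 : D ≤ q * (Dr.card + h ^ 2) := by
        rw [← hlk, ← hAq]
        exact h1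
      have h3 : (D : ℝ) ≤ q * (Dr.card + (h : ℝ) ^ 2) := by exact_mod_cast h2
      rw [hD] at h3
      have h4 : (0 : ℝ) ≤ Dr.card + (h : ℝ) ^ 2 := by positivity
      have h5 : (q : ℝ) * (Dr.card + (h : ℝ) ^ 2) ≤ 2 * L * (Dr.card + (h : ℝ) ^ 2) :=
        mul_le_mul_of_nonneg_right hq2 h4
      have h6 : 2 * L * p ≤ 2 * L * (Dr.card + (h : ℝ) ^ 2) := by linarith
      have h7 := le_of_mul_le_mul_left h6 (by positivity)
      linarith
    · have h2 : (k : ℝ) * (h + 1) ≤ 3 * Dr.card := by exact_mod_cast h1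
      have h3 : (k : ℝ) * 10 ^ 7 ≤ k * (h + 1) := by
        apply mul_le_mul_of_nonneg_left _ (Nat.cast_nonneg k)
        linarith
      have h4 : (10 : ℝ) ^ 15 ≤ p := hp1
      have h5 : (p / 20000 - 1) * 10 ^ 7 ≤ (k : ℝ) * 10 ^ 7 := by
        apply mul_le_mul_of_nonneg_right _ (by positivity)
        linarith
      norm_num at h5 h4 h3 ⊢
      linarith

end C0q2
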